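import Mathlib
import Pool.Agent.H98.Code.Minor

set_option autoImplicit false

/-!
Dimension count for the two tree step (MP_a46c6f_co): in a code without `{0, z}`-words which contains
the words `wd S H` and `m0`, every word which is `0` at the root is one of the `wd S H`.
-/

namespace Pool.Agent.H44.TT

open Pool.Agent.H98.Code

theorem hall {V0 V1 : Type} [Fintype V0] [Fintype V1] [Nonempty V0]
    (lap0 : (V0 → ZMod 2) → V0 → ZMod 2) (lap1 : (V1 → ZMod 2) → V1 → ZMod 2)
    (hc0 : ∀ S, (∀ x, lap0 S x = 0) → ∀ x y, S x = S y)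
    (hc1 : ∀ S, (∀ x, lap1 S x = 0) → ∀ x y, S x = S y)
    (a : V1 → V0) (b : V0 → V1) (φ0 : V0 → ZMod 2) (φ1 : V1 → ZMod 2)
    {L : Submodule (ZMod 2) (Option (V0 ⊕ V1) → K)} (hz : NoZ L)
    (wd : (V0 → ZMod 2) → (V1 → ZMod 2) → Option (V0 ⊕ V1) → K)
    (hwn : ∀ S H, wd S H none = 0)
    (hwl : ∀ S H x, wd S H (some (Sum.inl x)) =
      (S x + H (b x), (S x + H (b x)) * φ0 x + lap0 S x))
    (hwr : ∀ S H q, wd S H (some (Sum.inr q)) =
      (H q + S (a q), (H q + S (a q)) * φ1 q + lap1 H q))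
    (hw : ∀ S H, wd S H ∈ L)
    (m0 : Option (V0 ⊕ V1) → K) (hm : m0 ∈ L) (hmn : m0 none = z)
    (hml : ∀ x, m0 (some (Sum.inl x)) = (1, φ0 x))
    (hmr : ∀ q, m0 (some (Sum.inr q)) = 0)
    (u : Option (V0 ⊕ V1) → K) (hu : u ∈ L) (hun : u none = 0) :
    ∃ S H, u = wd S H := by
  classical
  -- the map on the first coordinates
  let Θ0 : ((V0 → ZMod 2) × (V1 → ZMod 2) × ZMod 2) → (V0 ⊕ V1 → ZMod 2) := fun p =>
    Sum.elim (fun x => p.1 x + p.2.1 (b x) + p.2.2) (fun q => p.2.1 q + p.1 (a q))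
  let Θ : ((V0 → ZMod 2) × (V1 → ZMod 2) × ZMod 2) →ₗ[ZMod 2] (V0 ⊕ V1 → ZMod 2) :=
    { toFun := Θ0
      map_add' := by
        intro p q
        funext v
        rcases v with x | x
        · simp only [Θ0, Sum.elim_inl, Prod.fst_add, Prod.snd_add, Pi.add_apply]
          ring
        · simp only [Θ0, Sum.elim_inr, Prod.fst_add, Prod.snd_add, Pi.add_apply]
          ring
      map_smul' := by
        intro c p
        funext v
        rcases v with x | x
        · simp only [Θ0, Sum.elim_inl, Prod.smul_fst, Prod.smul_snd, Pi.smul_apply, smul_eq_mul,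
            RingHom.id_apply]
          ring
        · simp only [Θ0, Sum.elim_inr, Prod.smul_fst, Prod.smul_snd, Pi.smul_apply, smul_eq_mul,
            RingHom.id_apply]
          ring }
  -- the word of a triple
  have hword : ∀ p : (V0 → ZMod 2) × (V1 → ZMod 2) × ZMod 2,
      wd p.1 p.2.1 + p.2.2 • m0 ∈ L := fun p => L.add_mem (hw _ _) (L.smul_mem _ hm)
  have hfst : ∀ p : (V0 → ZMod 2) × (V1 → ZMod 2) × ZMod 2, ∀ v : V0 ⊕ V1,
      ((wd p.1 p.2.1 + p.2.2 • m0) (some v)).1 = Θ0 p v := by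
    intro p v
    rcases v with x | q
    · rw [Pi.add_apply, Pi.smul_apply, hwl, hml]
      simp [Θ0]
    · rw [Pi.add_apply, Pi.smul_apply, hwr, hmr]
      simp [Θ0]
  have hnone : ∀ p : (V0 → ZMod 2) × (V1 → ZMod 2) × ZMod 2,
      (wd p.1 p.2.1 + p.2.2 • m0) none = (0, p.2.2) := by
    intro p
    rw [Pi.add_apply, Pi.smul_apply, hwn, hmn, zero_add]
    simp [z]
  -- the kernel
  have hker : ∀ p, Θ p = 0 → p = 0 ∨ p = ((fun _ => 1), (fun _ => 1), 0) := by
    intro p hp
    have h0 : ∀ v, Θ0 p v = 0 := fun v => congrFun hp v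
    have h1 : wd p.1 p.2.1 + p.2.2 • m0 = 0 := by
      apply hz _ (hword p)
      intro v
      rcases v with _ | v
      · rw [hnone]
      · rw [hfst, h0]
    have h2 : p.2.2 = 0 := by
      have h := congrFun h1 none
      rw [hnone] at h
      exact congrArg Prod.snd h
    have h3 : wd p.1 p.2.1 = 0 := by
      rw [h2, zero_smul, add_zero] at h1
      exact h1
    have h4 : ∀ x, p.1 x + p.2.1 (b x) = 0 ∧ lap0 p.1 x = 0 := by
      intro x
      have h := congrFun h3 (some (Sum.inl x))
      rw [hwl] at h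
      have e1 : p.1 x + p.2.1 (b x) = 0 := congrArg Prod.fst h
      have e2 : (p.1 x + p.2.1 (b x)) * φ0 x + lap0 p.1 x = 0 := congrArg Prod.snd h
      rw [e1, zero_mul, zero_add] at e2
      exact ⟨e1, e2⟩
    have h5 : ∀ x, p.2.1 x + p.1 (a x) = 0 ∧ lap1 p.2.1 x = 0 := by
      intro x
      have h := congrFun h3 (some (Sum.inr x))
      rw [hwr] at h
      have e1 : p.2.1 x + p.1 (a x) = 0 := congrArg Prod.fst h
      have e2 : (p.2.1 x + p.1 (a x)) * φ1 x + lap1 p.2.1 x = 0 := congrArg Prod.snd h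
      rw [e1, zero_mul, zero_add] at e2
      exact ⟨e1, e2⟩
    have h6 := hc0 p.1 fun x => (h4 x).2
    have h7 := hc1 p.2.1 fun x => (h5 x).2
    obtain ⟨x0⟩ := (inferInstance : Nonempty V0)
    have h8 : p.2.1 (b x0) = p.1 x0 := by
      have := (h4 x0).1
      exact (CharTwo.add_eq_zero.1 this).symm
    have h9 : p.1 = fun _ => p.1 x0 := funext fun x => h6 x x0
    have h10 : p.2.1 = fun _ => p.1 x0 := funext fun x => by rw [h7 x (b x0), h8]
    have h11 : p.1 x0 = 0 ∨ p.1 x0 = 1 := by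
      generalize p.1 x0 = t
      revert t
      decide
    rcases h11 with h | h
    · left
      rw [h] at h9 h10
      exact Prod.ext h9 (Prod.ext h10 h2)
    · right
      rw [h] at h9 h10
      exact Prod.ext h9 (Prod.ext h10 h2)
  have hkd : Module.finrank (ZMod 2) (LinearMap.ker Θ) ≤ 1 := by
    have h1 : LinearMap.ker Θ ≤ Submodule.span (ZMod 2)
        {(((fun _ => 1), (fun _ => 1), 0) : (V0 → ZMod 2) × (V1 → ZMod 2) × ZMod 2)} := by
      intro p hp
      rcases hker p (LinearMap.mem_ker.1 hp) with rfl | rfl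
      · exact Submodule.zero_mem _
      · exact Submodule.mem_span_singleton_self _
    refine (Submodule.finrank_mono h1).trans ?_
    refine (finrank_span_le_card _).trans ?_
    simp
  have hsurj : LinearMap.range Θ = ⊤ := by
    apply Submodule.eq_top_of_finrank_eq
    apply le_antisymm (Submodule.finrank_le _)
    have h1 := LinearMap.finrank_range_add_finrank_ker Θ
    have h2 : Module.finrank (ZMod 2) ((V0 → ZMod 2) × (V1 → ZMod 2) × ZMod 2) =
        Fintype.card V0 + (Fintype.card V1 + 1) := by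
      rw [Module.finrank_prod, Module.finrank_prod, Module.finrank_fintype_fun_eq_card,
        Module.finrank_fintype_fun_eq_card, Module.finrank_self]
    have h3 : Module.finrank (ZMod 2) (V0 ⊕ V1 → ZMod 2) = Fintype.card V0 + Fintype.card V1 := by
      rw [Module.finrank_fintype_fun_eq_card, Fintype.card_sum]
    rw [h2] at h1
    rw [h3]
    omega
  -- conclusion
  have h1 : (fun v => (u (some v)).1) ∈ LinearMap.range Θ := by
    rw [hsurj]
    trivial
  obtain ⟨p, hp⟩ := h1
  have h2 : u = wd p.1 p.2.1 + p.2.2 • m0 := by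
    apply eq_of_fst hz hu (hword p)
    intro v
    rcases v with _ | v
    · rw [hnone, hun]
      rfl
    · rw [hfst]
      exact (congrFun hp v).symm
  have h3 : p.2.2 = 0 := by
    have h := congrFun h2 none
    rw [hnone, hun] at h
    exact (congrArg Prod.snd h).symm
  refine ⟨p.1, p.2.1, ?_⟩
  rw [h2, h3, zero_smul, add_zero]

end Pool.Agent.H44.TT
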